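import Pool.Agent.Helper2_TMP.StG

/-!
# TMP: modules CHR0 and TRC
-/

open scoped BigOperators

namespace Pool.Agent.DEN.TMP.H58

open Pool.Agent.DEN Pool.Agent.DEN.TMP

section basic
variable {H : Type} [Group H] {L : Subgroup H} {κ : H → ℂ}

theorem right_inv (h : ∀ k ∈ L, ∀ g, κ (k * g) = κ g ∧ κ (g * k) = κ g) {a b : H}
    (hab : (a : H ⧸ L) = (b : H ⧸ L)) : κ a = κ b := by
  have h1 : a⁻¹ * b ∈ L := QuotientGroup.eq.1 hab
  have h2 := (h _ h1 a).2
  rw [mul_inv_cancel_left] at h2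
  exact h2.symm

theorem left_inv (h : ∀ k ∈ L, ∀ g, κ (k * g) = κ g ∧ κ (g * k) = κ g) {a b : H}
    (hab : (a : H ⧸ L) = (b : H ⧸ L)) (g : H) : κ (a⁻¹ * g) = κ (b⁻¹ * g) := by
  have h1 : a⁻¹ * b ∈ L := QuotientGroup.eq.1 hab
  have h2 := (h _ h1 (b⁻¹ * g)).1
  rw [← h2]
  congr 1
  group

theorem out_eq (x : H ⧸ L) : ((x.out : H) : H ⧸ L) = x := QuotientGroup.out_eq' x

theorem smul_out (g : H) (x : H ⧸ L) : ((g * x.out : H) : H ⧸ L) = g • x := by
  conv_rhs => rw [← out_eq x]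
  rfl

/-- the kernel `κ (g⁻¹ y)` has finite support -/
theorem ker_fin (h : Hk L κ) (g : H) : {y : H ⧸ L | κ (g⁻¹ * y.out) ≠ 0}.Finite := by
  have h1 : {y : H ⧸ L | κ (g⁻¹ * y.out) ≠ 0} = (fun y : H ⧸ L => g⁻¹ • y) ⁻¹' {y | κ y.out ≠ 0} := by
    ext y
    simp only [Set.mem_ofPred_eq, Set.mem_preimage]
    rw [right_inv h.1 (a := g⁻¹ * y.out) (b := (g⁻¹ • y).out)]
    rw [smul_out, out_eq]
  rw [h1]
  exact h.2.preimage ((MulAction.injective g⁻¹).injOn)

end basic

/-- **CHR0** -/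
theorem chr0 (hka : HkaStmt) : Chr0Stmt := by
  intro H _ L F hF lam hl
  obtain ⟨x, hx⟩ := hF
  obtain ⟨hadd, hsmul, hcnv, -, huni, -⟩ := hka H L
  constructor
  · intro κ κ' h h'
    apply mul_right_cancel₀ hx
    rw [← hl _ (hadd κ κ' h h'), add_mul, ← hl κ h, ← hl κ' h']
    rw [← finsum_add_distrib]
    · refine finsum_congr fun y => ?_
      simp only [Pi.add_apply]
      ring
    · exact (ker_fin h x.out).subset fun y hy => left_ne_zero_of_mul hy
    · exact (ker_fin h' x.out).subset fun y hy => left_ne_zero_of_mul hy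
  · intro c κ h
    apply mul_right_cancel₀ hx
    rw [← hl _ (hsmul c κ h), mul_assoc, ← hl κ h, mul_finsum]
    refine finsum_congr fun y => ?_
    simp only [Pi.smul_apply, smul_eq_mul]
    ring
  · intro κ κ' h h'
    apply mul_right_cancel₀ hx
    rw [← hl _ (hcnv κ κ' h h')]
    have e1 : ∀ y : H ⧸ L, cnv L κ κ' (x.out⁻¹ * y.out) =
        ∑ᶠ w : H ⧸ L, κ (x.out⁻¹ * w.out) * κ' (w.out⁻¹ * y.out) := by
      intro y
      rw [cnv]
      rw [← finsum_comp_equiv (MulAction.toPerm (x.out⁻¹ : H))]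
      refine finsum_congr fun w => ?_
      simp only [MulAction.toPerm_apply]
      rw [right_inv h.1 (a := (x.out⁻¹ • w).out) (b := x.out⁻¹ * w.out)
        (by rw [smul_out, out_eq])]
      congr 1
      rw [left_inv h'.1 (a := (x.out⁻¹ • w).out) (b := x.out⁻¹ * w.out)
        (by rw [smul_out, out_eq])]
      congr 1
      group
    have hfin := ker_fin h x.out
    set A : Finset (H ⧸ L) := hfin.toFinset with hA
    have e2 : ∀ y : H ⧸ L, cnv L κ κ' (x.out⁻¹ * y.out) * F y =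
        ∑ w ∈ A, κ (x.out⁻¹ * w.out) * (κ' (w.out⁻¹ * y.out) * F y) := by
      intro y
      rw [e1, finsum_eq_sum_of_support_subset (s := A), Finset.sum_mul]
      · exact Finset.sum_congr rfl fun w _ => by ring
      · intro w hw
        rw [hA, Set.Finite.coe_toFinset]
        exact left_ne_zero_of_mul hw
    rw [finsum_congr e2, finsum_sum_comm]
    · have e3 : ∀ w ∈ A, ∑ᶠ y : H ⧸ L, κ (x.out⁻¹ * w.out) * (κ' (w.out⁻¹ * y.out) * F y) =
          lam κ' * (κ (x.out⁻¹ * w.out) * F w) := by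
        intro w _
        rw [← mul_finsum, hl κ' h']
        ring
      rw [Finset.sum_congr rfl e3, ← Finset.mul_sum]
      have e4 : ∑ w ∈ A, κ (x.out⁻¹ * w.out) * F w = lam κ * F x := by
        rw [← hl κ h, finsum_eq_sum_of_support_subset (s := A)]
        intro w hw
        rw [hA, Set.Finite.coe_toFinset]
        exact left_ne_zero_of_mul hw
      rw [e4]
      ring
    · intro w _
      refine (ker_fin h' w.out).subset fun y hy => ?_
      exact left_ne_zero_of_mul (right_ne_zero_of_mul hy)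
  · apply mul_right_cancel₀ hx
    rw [← hl _ huni, one_mul, finsum_eq_single _ x]
    · rw [uni, if_pos (by rw [inv_mul_cancel]; exact one_mem L), one_mul]
    · intro y hy
      rw [uni, if_neg, zero_mul]
      intro h1
      apply hy
      have h2 := QuotientGroup.eq.2 h1
      rw [out_eq, out_eq] at h2
      exact h2.symm

section trc
variable {H H' : Type} [Group H] [Group H'] {L : Subgroup H} {L' : Subgroup H'} {φ : H' →* H}

/-- the bijection of the cosets -/
noncomputable def eqv (h1 : ∀ g, φ g ∈ L ↔ g ∈ L') (h2 : ∀ h : H, ∃ g, ∃ l ∈ L, h = φ g * l) :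
    H' ⧸ L' ≃ H ⧸ L :=
  Equiv.ofBijective
    (Quotient.map' (s₁ := QuotientGroup.leftRel L') (s₂ := QuotientGroup.leftRel L) φ (by
      intro a b hab
      rw [QuotientGroup.leftRel_apply] at hab ⊢
      rw [← map_inv, ← map_mul]
      exact (h1 _).2 hab)) (by
    constructor
    · intro x y hxy
      induction x using Quotient.inductionOn' with | _ a =>
      induction y using Quotient.inductionOn' with | _ b =>
      rw [Quotient.map'_mk'', Quotient.map'_mk''] at hxy
      apply Quotient.sound'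
      have h3 := Quotient.exact' hxy
      rw [QuotientGroup.leftRel_apply] at h3 ⊢
      rw [← map_inv, ← map_mul] at h3
      exact (h1 _).1 h3
    · intro y
      induction y using Quotient.inductionOn' with | _ b =>
      obtain ⟨g, l, hl, hb⟩ := h2 b
      refine ⟨Quotient.mk'' g, ?_⟩
      rw [Quotient.map'_mk'']
      apply Quotient.sound'
      rw [QuotientGroup.leftRel_apply, hb, inv_mul_cancel_left]
      exact hl)

theorem eqv_mk (h1 : ∀ g, φ g ∈ L ↔ g ∈ L') (h2 : ∀ h : H, ∃ g, ∃ l ∈ L, h = φ g * l) (a : H') :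
    eqv h1 h2 (a : H' ⧸ L') = (φ a : H ⧸ L) := rfl

theorem eqv_out (h1 : ∀ g, φ g ∈ L ↔ g ∈ L') (h2 : ∀ h : H, ∃ g, ∃ l ∈ L, h = φ g * l)
    (y : H' ⧸ L') : (((eqv h1 h2 y).out : H) : H ⧸ L) = (φ y.out : H ⧸ L) := by
  rw [out_eq, ← eqv_mk h1 h2, out_eq]

end trc

/-- **TRC** -/
theorem trc : TrcStmt := by
  intro H H' _ _ L L' φ h1 h2
  have hk : ∀ κ, Hk L κ → Hk L' (κ ∘ φ) := by
    intro κ h
    refine ⟨fun k hk g => ?_, ?_⟩
    · simp only [Function.comp_apply, map_mul]
      exact h.1 _ ((h1 k).2 hk) _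
    · have e : {y : H' ⧸ L' | (κ ∘ φ) y.out ≠ 0} = (eqv h1 h2) ⁻¹' {y | κ y.out ≠ 0} := by
        ext y
        simp only [Set.mem_ofPred_eq, Set.mem_preimage, Function.comp_apply]
        rw [right_inv h.1 (eqv_out h1 h2 y)]
      rw [e]
      exact h.2.preimage (eqv h1 h2).injective.injOn
  have hcnv : ∀ κ κ', Hk L κ → Hk L κ' → cnv L' (κ ∘ φ) (κ' ∘ φ) = cnv L κ κ' ∘ φ := by
    intro κ κ' h h'
    funext g
    simp only [cnv, Function.comp_apply]
    rw [← finsum_comp_equiv (eqv h1 h2)]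
    refine finsum_congr fun y => ?_
    rw [right_inv h.1 (eqv_out h1 h2 y), left_inv h'.1 (eqv_out h1 h2 y), map_mul, map_inv]
  have hsta : ∀ κ : H → ℂ, sta (κ ∘ φ) = sta κ ∘ φ := by
    intro κ
    funext g
    simp only [sta, Function.comp_apply, map_inv]
  have huni : uni L' = uni L ∘ φ := by
    funext g
    by_cases hg : g ∈ L'
    · rw [Function.comp_apply, uni, uni, if_pos hg, if_pos ((h1 g).2 hg)]
    · rw [Function.comp_apply, uni, uni, if_neg hg, if_neg (fun h => hg ((h1 g).1 h))]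
  have hker : ∀ κ, Hk L κ → ∀ x y : H' ⧸ L', (κ ∘ φ) (x.out⁻¹ * y.out) =
      κ ((eqv h1 h2 x).out⁻¹ * (eqv h1 h2 y).out) := by
    intro κ h x y
    rw [left_inv h.1 (eqv_out h1 h2 x)]
    simp only [Function.comp_apply, map_mul, map_inv]
    apply right_inv h.1
    have h3 := eqv_out h1 h2 y
    rw [QuotientGroup.eq] at h3 ⊢
    have h4 : ((φ x.out)⁻¹ * φ y.out)⁻¹ * ((φ x.out)⁻¹ * (eqv h1 h2 y).out) =
        ((eqv h1 h2 y).out⁻¹ * φ y.out)⁻¹ := by group
    rw [h4]
    exact inv_mem h3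
  refine ⟨?_, hk, hcnv, hsta, huni, ?_, ?_, ?_, ?_⟩
  · intro h g
    have h3 := (h (φ g)).preimage (f := eqv h1 h2) (eqv h1 h2).injective.injOn
    refine h3.subset ?_
    rintro y ⟨l, hl, rfl⟩
    refine ⟨φ l, (h1 l).2 hl, ?_⟩
    rw [← map_mul]
    exact eqv_mk h1 h2 _
  · intro κ h
    rw [normSq, normSq, ← finsum_comp_equiv (eqv h1 h2)]
    refine finsum_congr fun y => ?_
    rw [right_inv h.1 (eqv_out h1 h2 y)]
    rfl
  · intro κ h τ
    constructor
    · intro hn S T ψ
      have h3 := hn (S.map (eqv h1 h2).symm.toEmbedding) (T.map (eqv h1 h2).symm.toEmbedding)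
        (ψ ∘ eqv h1 h2)
      simp only [Finset.sum_map, hker κ h, Equiv.coe_toEmbedding, Function.comp_apply,
        Equiv.apply_symm_apply] at h3
      exact h3
    · intro hn S T ψ
      have h3 := hn (S.map (eqv h1 h2).toEmbedding) (T.map (eqv h1 h2).toEmbedding)
        (ψ ∘ (eqv h1 h2).symm)
      simp only [Finset.sum_map, Equiv.coe_toEmbedding, Function.comp_apply,
        Equiv.symm_apply_apply] at h3
      simp only [hker κ h]
      exact h3
  · intro lam hl
    refine ⟨?_, ?_, ?_, ?_⟩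
    · intro κ κ' h h'
      exact hl.add _ _ (hk κ h) (hk κ' h')
    · intro c κ h
      exact hl.smul c _ (hk κ h)
    · intro κ κ' h h'
      rw [← hcnv κ κ' h h']
      exact hl.mul _ _ (hk κ h) (hk κ' h')
    · rw [← huni]
      exact hl.one
  · intro lam hl κ h
    show lam (sta κ ∘ φ) = _
    rw [← hsta]
    exact hl _ (hk κ h)

end Pool.Agent.DEN.TMP.H58
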