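import Pool.Agent.Helper84_TMP.Stmt
import Pool.Agent.Helper58_TMP.Trc

/-!
# TMP: module KHK
-/

open scoped BigOperators

namespace Pool.Agent.TMP.H58

open Pool.Agent.DEN Pool.Agent.TMP Pool.Agent.DEN.TMP.H58

section
variable {r : ℕ} {C : Matrix (Fin r) (Fin r) ℤ} {K : Type} [Field K]

theorem out_oo (y : XX C K) : y.out • oo C K = y := by
  unfold oo
  rw [smul_pt, mul_one]
  exact out_eq y

theorem k_inv {k : XX C K → XX C K → ℂ} (hk : IsKer k) (g : grp C K) (x y : XX C K) :
    k (g • x) y = k x (g⁻¹ • y) := by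
  have h := hk.inv g x (g⁻¹ • y)
  rw [smul_inv_smul] at h
  exact h

theorem k_out {k : XX C K → XX C K → ℂ} (hk : IsKer k) (x y : XX C K) :
    k x y = k (oo C K) (x.out⁻¹ • y) := by
  have h := k_inv hk x.out (oo C K) y
  rw [out_oo] at h
  exact h

end

/-- **KHK** -/
theorem khk (_ : KerStmt) : KhkStmt := by
  intro r C hC K _ _
  refine ⟨?_, ?_, ?_, ?_⟩
  · intro k hk
    refine ⟨⟨fun κ hκ g => ?_, ?_⟩, ?_, ?_, ?_⟩
    · have h1 := (mem_maxK_iff κ).1 hκ
      constructor
      · show k (oo C K) ((κ * g) • oo C K) = k (oo C K) (g • oo C K)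
        rw [mul_smul]
        have h2 := hk.inv κ (oo C K) (g • oo C K)
        rw [h1] at h2
        exact h2
      · show k (oo C K) ((g * κ) • oo C K) = k (oo C K) (g • oo C K)
        rw [mul_smul, h1]
    · refine (hk.fin (oo C K)).subset fun y hy => ?_
      have h2 : k (oo C K) (y.out • oo C K) ≠ 0 := hy
      rw [out_oo] at h2
      exact h2
    · intro x y
      rw [mul_smul, out_oo]
      exact k_out hk x y
    · unfold normSq
      refine finsum_congr fun y => ?_
      show ‖k (oo C K) (y.out • oo C K)‖ ^ 2 = _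
      rw [out_oo]
    · funext g
      show (starRingEnd ℂ) (k (oo C K) (g⁻¹ • oo C K)) = (starRingEnd ℂ) (k (g • oo C K) (oo C K))
      rw [k_inv hk g]
  · intro k k' hk hk'
    funext g
    show ∑ᶠ y : XX C K, k (oo C K) (y.out • oo C K) * k' (oo C K) ((y.out⁻¹ * g) • oo C K) =
      ∑ᶠ y : XX C K, k (oo C K) y * k' y (g • oo C K)
    refine finsum_congr fun y => ?_
    rw [out_oo, mul_smul, ← k_out hk' y]
  · funext g
    have e : g ∈ maxK C K ↔ oo C K = g • oo C K := by rw [mem_maxK_iff, eq_comm]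
    unfold DEN.TMP.uni kone
    by_cases hg : g ∈ maxK C K
    · rw [if_pos hg, if_pos (e.1 hg)]
    · rw [if_neg hg, if_neg (fun h => hg (e.2 h))]
  · intro κ hκ
    refine ⟨fun x y => κ (x.out⁻¹ * y.out), ⟨?_, ?_⟩, ?_, ?_⟩
    · intro g x y
      show κ ((g • x).out⁻¹ * (g • y).out) = κ (x.out⁻¹ * y.out)
      rw [left_inv hκ.1 (a := (g • x).out) (b := g * x.out) (by rw [smul_out, out_eq])]
      apply right_inv hκ.1
      have h1 : (((g • y).out : grp C K) : XX C K) = ((g * y.out : grp C K) : XX C K) := by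
        rw [smul_out, out_eq]
      rw [QuotientGroup.eq] at h1 ⊢
      have h2 : ((g * x.out)⁻¹ * (g • y).out)⁻¹ * (x.out⁻¹ * y.out) =
          (g • y).out⁻¹ * (g * y.out) := by group
      rw [h2]
      exact h1
    · intro x
      exact ker_fin hκ x.out
    · intro g
      show κ g = κ ((oo C K).out⁻¹ * (g • oo C K).out)
      rw [left_inv hκ.1 (a := (oo C K).out) (b := 1) (by rw [out_eq]; rfl), inv_one, one_mul]
      apply right_inv hκ.1
      rw [out_eq]
      unfold oo
      rw [smul_pt, mul_one]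
      rfl
    · intro τ h
      exact h

end Pool.Agent.TMP.H58
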