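import Pool.Agent.Helper58_TMP.Khk

/-!
# TMP: module SMU
-/

open scoped BigOperators

namespace Pool.Agent.TMP.H58

open Pool.Agent.DEN Pool.Agent.TMP Pool.Agent.DEN.TMP.H58

section
variable {r : ℕ} {C : Matrix (Fin r) (Fin r) ℤ} {K : Type} [Field K]

theorem tg_Ug (hC : SimplyLaced C) (l : Fin r → ℤ) {u : grp C K} (hu : u ∈ Ug C K) :
    tg hC K l * u * (tg hC K l)⁻¹ ∈ Ug C K := by
  rw [Ug_eq hC] at hu
  induction hu using Subgroup.closure_induction with
  | mem x hx =>
    obtain ⟨β, a, hβ, rfl⟩ := hx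
    rw [tg_xg]
    exact xg_Ug hC hβ _
  | one => rw [mul_one, mul_inv_cancel]; exact one_mem _
  | mul x y _ _ hx hy =>
    have e : tg hC K l * (x * y) * (tg hC K l)⁻¹ =
        (tg hC K l * x * (tg hC K l)⁻¹) * (tg hC K l * y * (tg hC K l)⁻¹) := by group
    rw [e]
    exact mul_mem hx hy
  | inv x _ hx =>
    have e : tg hC K l * x⁻¹ * (tg hC K l)⁻¹ = (tg hC K l * x * (tg hC K l)⁻¹)⁻¹ := by group
    rw [e]
    exact inv_mem hx

theorem hor_smul (hC : SimplyLaced C) {u : grp C K} (hu : u ∈ Ug C K) (l : Fin r → ℤ)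
    {m : Fin r → ℤ} {y : XX C K} (hy : y ∈ Hor hC K m) :
    (u * tg hC K l)⁻¹ • y ∈ Hor hC K (m - l) := by
  obtain ⟨v, hv, rfl⟩ := hy
  have h1 : u⁻¹ * v ∈ Ug C K := mul_mem (inv_mem hu) hv
  have h2 := tg_Ug hC (-l) h1
  refine ⟨_, h2, ?_⟩
  have e : m - l = -l + m := by abel
  rw [e, ← tg_tp, ← mul_smul, ← mul_smul, tg_neg]
  congr 1
  group

theorem hor_smul' (hC : SimplyLaced C) {u : grp C K} (hu : u ∈ Ug C K) (l : Fin r → ℤ)
    {m : Fin r → ℤ} {y : XX C K} (hy : y ∈ Hor hC K (m - l)) :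
    (u * tg hC K l) • y ∈ Hor hC K m := by
  obtain ⟨v, hv, rfl⟩ := hy
  refine ⟨_, mul_mem hu (tg_Ug hC l hv), ?_⟩
  have e : m = l + (m - l) := by abel
  conv_rhs => rw [e, ← tg_tp, ← mul_smul]
  rw [← mul_smul]
  congr 1
  group

end

theorem fsum_filter {X I : Type} [DecidableEq I] (f : X → ℂ) (A : Finset X) (hA : ∀ y, f y ≠ 0 → y ∈ A)
    (lam : X → I) (l : I) (S : Set X) (hS : ∀ y, y ∈ S ↔ lam y = l) :
    ∑ᶠ y ∈ S, f y = ∑ y ∈ A with lam y = l, f y := by
  apply finsum_mem_eq_sum_of_inter_support_eq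
  ext y
  simp only [Set.mem_inter_iff, Function.mem_support, Finset.coe_filter, hS]
  constructor
  · rintro ⟨h1, h2⟩
    exact ⟨⟨hA y h2, h1⟩, h2⟩
  · rintro ⟨⟨-, h1⟩, h2⟩
    exact ⟨h1, h2⟩

/-- **SMU** -/
theorem smu (hker : KerStmt) (hhor : HorStmt) : SmuStmt := by
  intro r C hC K _ _
  obtain ⟨hcol, hmul, hst, hadd, hsmul, hone, -, -⟩ := hker r C hC K
  have hun := (hhor r C hC K).1
  have hq : (Nat.card K : ℂ) ≠ 0 := by
    exact_mod_cast Nat.card_pos.ne'
  -- uniqueness of the horocycle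
  have huni : ∀ (l m : Fin r → ℤ) (y : XX C K), y ∈ Hor hC K l → y ∈ Hor hC K m → l = m := by
    rintro l m y ⟨u, hu, rfl⟩ ⟨v, hv, h⟩
    apply hun (v⁻¹ * u) (mul_mem (inv_mem hv) hu) l m
    rw [mul_smul, h, inv_smul_smul]
  have hex : ∀ y : XX C K, ∃ l, y ∈ Hor hC K l := by
    intro y
    obtain ⟨u, hu, l, h⟩ := iwa hC y
    exact ⟨l, u, hu, h⟩
  choose lam hlam using hex
  have hlam' : ∀ (l : Fin r → ℤ) (y : XX C K), y ∈ Hor hC K l ↔ lam y = l := by
    intro l y
    constructor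
    · intro h
      exact huni _ _ _ (hlam y) h
    · rintro rfl
      exact hlam y
  -- the last part
  have h7 : ∀ k : XX C K → XX C K → ℂ, IsKer k → ∀ (x : XX C K) (l m : Fin r → ℤ),
      x ∈ Hor hC K l → ∑ᶠ y ∈ Hor hC K m, k x y = hsum hC k (m - l) := by
    intro k hk x l m hx
    obtain ⟨u, hu, rfl⟩ := hx
    unfold hsum
    refine finsum_mem_eq_of_bijOn (fun y => (u * tg hC K l)⁻¹ • y) ⟨?_, ?_, ?_⟩ ?_
    · intro y hy
      exact hor_smul hC hu l hy
    · exact (MulAction.injective _).injOn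
    · intro y hy
      exact ⟨_, hor_smul' hC hu l hy, inv_smul_smul _ _⟩
    · intro y _
      have h := k_inv hk (u * tg hC K l) (oo C K) y
      rw [← h, mul_smul, tp_smul]
  classical
  have hfinsum : ∀ k : XX C K → XX C K → ℂ, IsKer k → ∀ (A : Finset (XX C K)),
      (∀ y, k (oo C K) y ≠ 0 → y ∈ A) → ∀ l, hsum hC k l =
        ∑ y ∈ A with lam y = l, k (oo C K) y := by
    intro k hk A hA l
    unfold hsum
    rw [fsum_filter _ A hA lam l _ (hlam' l)]
  have hsup : ∀ k : XX C K → XX C K → ℂ, IsKer k → ∀ (A : Finset (XX C K)),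
      (∀ y, k (oo C K) y ≠ 0 → y ∈ A) → ∀ l, hsum hC k l ≠ 0 → l ∈ A.image lam := by
    intro k hk A hA l hl
    rw [hfinsum k hk A hA l] at hl
    obtain ⟨y, hy, -⟩ := Finset.exists_ne_zero_of_sum_ne_zero hl
    rw [Finset.mem_filter] at hy
    exact Finset.mem_image.2 ⟨y, hy.1, hy.2⟩
  have hAA : ∀ k : XX C K → XX C K → ℂ, IsKer k → ∃ A : Finset (XX C K),
      ∀ y, k (oo C K) y ≠ 0 → y ∈ A := by
    intro k hk
    exact ⟨(hk.fin (oo C K)).toFinset, fun y hy => by rw [Set.Finite.mem_toFinset]; exact hy⟩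
  refine ⟨?_, ?_, ?_, ?_, ?_, ?_, h7⟩
  · intro k hk
    obtain ⟨A, hA⟩ := hAA k hk
    refine (A.image lam).finite_toSet.subset fun l hl => ?_
    exact hsup k hk A hA l (right_ne_zero_of_mul hl)
  · intro k k' hk hk' l
    obtain ⟨A, hA⟩ := hAA k hk
    -- the horocycle sum of the product
    have e3 : ∀ z, kmul k k' (oo C K) z = ∑ y ∈ A, k (oo C K) y * k' y z := by
      intro z
      unfold kmul
      apply finsum_eq_sum_of_support_subset
      intro y hy
      exact hA y (left_ne_zero_of_mul hy)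
    set B : Finset (XX C K) := A.biUnion fun y => (hk'.fin y).toFinset with hB
    have hB1 : ∀ z, kmul k k' (oo C K) z ≠ 0 → z ∈ B := by
      intro z hz
      rw [e3] at hz
      obtain ⟨y, hy, h⟩ := Finset.exists_ne_zero_of_sum_ne_zero hz
      rw [hB, Finset.mem_biUnion]
      refine ⟨y, hy, ?_⟩
      rw [Set.Finite.mem_toFinset]
      exact right_ne_zero_of_mul h
    have hB2 : ∀ y ∈ A, ∀ z, k' y z ≠ 0 → z ∈ B := by
      intro y hy z hz
      rw [hB, Finset.mem_biUnion]
      refine ⟨y, hy, ?_⟩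
      rw [Set.Finite.mem_toFinset]
      exact hz
    have e1 : hsum hC (kmul k k') l = ∑ y ∈ A, k (oo C K) y * hsum hC k' (l - lam y) := by
      rw [hfinsum _ (hmul k k' hk hk') B hB1 l]
      simp_rw [e3]
      rw [Finset.sum_comm]
      refine Finset.sum_congr rfl fun y hy => ?_
      rw [← Finset.mul_sum, ← h7 k' hk' y (lam y) l (hlam y),
        fsum_filter _ B (hB2 y hy) lam l _ (hlam' l)]
    have e2 : hsum hC (kmul k k') l = ∑ m ∈ A.image lam, hsum hC k m * hsum hC k' (l - m) := by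
      rw [e1, ← Finset.sum_fiberwise_of_maps_to (g := lam) (t := A.image lam)
        (fun x hx => Finset.mem_image_of_mem _ hx)]
      refine Finset.sum_congr rfl fun m _ => ?_
      rw [hfinsum k hk A hA m, Finset.sum_mul]
      refine Finset.sum_congr rfl fun y hy => ?_
      rw [(Finset.mem_filter.1 hy).2]
    rw [finsum_eq_sum_of_support_subset (s := A.image lam)]
    · unfold sat
      rw [e2, Finset.mul_sum]
      refine Finset.sum_congr rfl fun m _ => ?_
      have e : hv l = hv m + hv (l - m) := by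
        unfold hv
        rw [← Finset.sum_add_distrib]
        refine Finset.sum_congr rfl fun i _ => ?_
        rw [Pi.sub_apply]
        ring
      rw [e, zpow_add₀ hq]
      ring
    · intro m hm
      exact hsup k hk A hA m (right_ne_zero_of_mul (left_ne_zero_of_mul hm))
  · intro k k' hk hk' l
    obtain ⟨A, hA⟩ := hAA k hk
    obtain ⟨A', hA'⟩ := hAA k' hk'
    obtain ⟨B, hB⟩ := hAA _ (hadd k k' hk hk')
    have e := hfinsum k hk (A ∪ A' ∪ B) (fun y hy => by simp [hA y hy]) l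
    have e' := hfinsum k' hk' (A ∪ A' ∪ B) (fun y hy => by simp [hA' y hy]) l
    have e'' := hfinsum _ (hadd k k' hk hk') (A ∪ A' ∪ B) (fun y hy => by simp [hB y hy]) l
    unfold sat
    rw [e, e', e'', ← mul_add, ← Finset.sum_add_distrib]
    rfl
  · intro c k hk l
    obtain ⟨A, hA⟩ := hAA k hk
    obtain ⟨B, hB⟩ := hAA _ (hsmul c k hk)
    have e := hfinsum k hk (A ∪ B) (fun y hy => by simp [hA y hy]) l
    have e'' := hfinsum _ (hsmul c k hk) (A ∪ B) (fun y hy => by simp [hB y hy]) l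
    unfold sat
    have e3 : ∑ y ∈ A ∪ B with lam y = l, (c • k) (oo C K) y =
        c * ∑ y ∈ A ∪ B with lam y = l, k (oo C K) y := by
      rw [Finset.mul_sum]
      rfl
    rw [e, e'', e3]
    ring
  · have e := hfinsum _ hone {oo C K} (fun y hy => by
      rw [Finset.mem_singleton]
      unfold kone at hy
      by_contra h
      exact hy (if_neg (fun h' => h h'.symm))) 0
    have h0 : lam (oo C K) = 0 := by
      rw [← hlam']
      exact ⟨1, one_mem _, by rw [one_smul, tp_zero]⟩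
    unfold sat
    rw [e, Finset.filter_singleton, if_pos h0, Finset.sum_singleton]
    unfold kone
    rw [if_pos rfl]
    simp [hv]
  · intro l hl
    have e := hfinsum _ hone {oo C K} (fun y hy => by
      rw [Finset.mem_singleton]
      unfold kone at hy
      by_contra h
      exact hy (if_neg (fun h' => h h'.symm))) l
    have h0 : lam (oo C K) = 0 := by
      rw [← hlam']
      exact ⟨1, one_mem _, by rw [one_smul, tp_zero]⟩
    unfold sat
    rw [e, Finset.filter_singleton, if_neg (by rw [h0]; exact hl.symm), Finset.sum_empty, mul_zero]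

end Pool.Agent.TMP.H58
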